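import Mathlib

set_option autoImplicit false

namespace H299Dual

open Set

section Acc

variable {ι Γ : Type} (CH : ι → Set Γ)

/-- `p` is an accumulation point of `A`. -/
def Acc (p : ι) (A : Set ι) : Prop :=
  ∀ r : Finset Γ, Disjoint (CH p) (r : Set Γ) → {q | q ∈ A ∧ Disjoint (CH q) (r : Set Γ)}.Infinite

theorem exists_small (S : Set ι) :
    ∃ N : Set ι, N ⊆ S ∧ N.Countable ∧ (S.Finite → S ⊆ N) ∧ (S.Infinite → N.Infinite) := by
  by_cases h : S.Finite
  · exact ⟨S, subset_rfl, h.countable, fun _ => subset_rfl, fun h' => (h' h).elim⟩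
  · have h' : S.Infinite := h
    refine ⟨range (fun n => (h'.natEmbedding S n : ι)), ?_, countable_range _,
      fun h2 => (h h2).elim, fun _ => ?_⟩
    · rintro _ ⟨n, rfl⟩
      exact (h'.natEmbedding S n).2
    · apply infinite_range_of_injective
      intro a b hab
      exact (h'.natEmbedding S).injective (Subtype.ext hab)

theorem exists_dense (hc : ∀ p, (CH p).Countable) (Q : Set ι) :
    ∃ A : Set ι, A ⊆ Q ∧ A.Countable ∧ ∀ p ∈ Q, p ∉ A → Acc CH p A := by
  classical
  choose N hN1 hN2 hN3 hN4 using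
    fun r : Finset Γ => exists_small {q | q ∈ Q ∧ Disjoint (CH q) (r : Set Γ)}
  let G : Set ι → Set Γ := fun B => ⋃ q ∈ B, CH q
  let step : Set ι → Set ι := fun B => B ∪ ⋃ r ∈ {r : Finset Γ | (r : Set Γ) ⊆ G B}, N r
  let A : ℕ → Set ι := fun n => step^[n] ∅
  have hA : ∀ n, A (n + 1) = step (A n) := fun n => Function.iterate_succ_apply' step n ∅
  have hsub : ∀ n, A n ⊆ Q := by
    intro n
    induction n with
    | zero => exact empty_subset _
    | succ n ih =>
      rw [hA]
      refine union_subset ih ?_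
      intro x hx
      simp only [mem_iUnion] at hx
      obtain ⟨r, -, hx⟩ := hx
      exact (hN1 r hx).1
  have hcount : ∀ n, (A n).Countable := by
    intro n
    induction n with
    | zero => exact countable_empty
    | succ n ih =>
      rw [hA]
      refine ih.union (Countable.biUnion ?_ fun r _ => hN2 r)
      have hG : (G (A n)).Countable := ih.biUnion fun q _ => hc q
      have := countable_setOf_finite_subset hG
      refine (this.preimage_of_injOn (f := fun r : Finset Γ => (r : Set Γ))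
        (fun a _ b _ h => Finset.coe_injective h)).mono ?_
      intro r hr
      exact ⟨r.finite_toSet, hr⟩
  have hmono : Monotone A := by
    apply monotone_nat_of_le_succ
    intro n
    rw [hA]
    exact subset_union_left
  refine ⟨⋃ n, A n, iUnion_subset hsub, countable_iUnion hcount, ?_⟩
  intro p hp hpA r hr
  let r' : Finset Γ := r.filter (fun γ => γ ∈ G (⋃ n, A n))
  have hex : ∃ n, (r' : Set Γ) ⊆ G (A n) := by
    have h1 : ∀ γ ∈ r', ∃ n, γ ∈ G (A n) := by
      intro γ hγ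
      have := (Finset.mem_filter.1 hγ).2
      simp only [G, mem_iUnion] at this ⊢
      obtain ⟨q, ⟨n, hn⟩, hq⟩ := this
      exact ⟨n, q, hn, hq⟩
    choose! f hf using h1
    refine ⟨r'.sup f, fun γ hγ => ?_⟩
    have h2 := hf γ hγ
    simp only [G, mem_iUnion] at h2 ⊢
    obtain ⟨q, hq, hq'⟩ := h2
    exact ⟨q, hmono (Finset.le_sup (f := f) hγ) hq, hq'⟩
  obtain ⟨n, hn⟩ := hex
  have hNA : N r' ⊆ ⋃ n, A n := by
    intro x hx
    refine mem_iUnion.2 ⟨n + 1, ?_⟩
    rw [hA]
    right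
    simp only [mem_iUnion]
    exact ⟨r', hn, hx⟩
  have hr'r : (r' : Set Γ) ⊆ r := fun γ hγ => (Finset.mem_filter.1 hγ).1
  have hinf : {q | q ∈ Q ∧ Disjoint (CH q) (r' : Set Γ)}.Infinite := by
    intro hfin
    exact hpA (hNA (hN3 r' hfin ⟨hp, hr.mono_right hr'r⟩))
  refine (hN4 r' hinf).mono ?_
  intro q hq
  refine ⟨hNA hq, ?_⟩
  rw [Set.disjoint_left]
  intro γ hγ hγr
  have h3 : γ ∈ r' := by
    refine Finset.mem_filter.2 ⟨hγr, ?_⟩
    simp only [G, mem_iUnion]
    obtain ⟨m, hm⟩ := mem_iUnion.1 (hNA hq)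
    exact ⟨q, ⟨m, hm⟩, hγ⟩
  exact Set.disjoint_left.1 (hN1 r' hq).2 hγ h3

/-- combinatorial discreteness -/
def Disc (P : Set ι) : Prop :=
  ∀ p ∈ P, ∃ r : Finset Γ, Disjoint (CH p) (r : Set Γ) ∧
    {q | q ∈ P ∧ Disjoint (CH q) (r : Set Γ)}.Finite

theorem height {κ : Type} (P : κ → Set ι) (hP : ∀ j, Disc CH (P j)) (A : ℕ → Set ι)
    (hA : ∀ k, ∀ p ∈ A (k + 1), Acc CH p (A k)) (n : ℕ) :
    ∀ (J : Finset κ) (r : Finset Γ) (F : Set ι), J.card = n → F.Finite →
      (∃ p ∈ A n, Disjoint (CH p) (r : Set Γ) ∧ p ∉ F) →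
      (∀ k, ∀ q ∈ A k, Disjoint (CH q) (r : Set Γ) → q ∉ F → ∃ j ∈ J, q ∈ P j) → False := by
  classical
  induction n with
  | zero =>
    rintro J r F hJ - ⟨p, hp, h1, h2⟩ h
    obtain ⟨j, hj, -⟩ := h 0 p hp h1 h2
    rw [Finset.card_eq_zero.1 hJ] at hj
    simp at hj
  | succ n ih =>
    rintro J r F hJ hF ⟨p, hp, h1, h2⟩ h
    obtain ⟨j, hj, hpj⟩ := h _ p hp h1 h2
    obtain ⟨s, hs1, hs2⟩ := hP j p hpj
    have hd : Disjoint (CH p) ((r ∪ s : Finset Γ) : Set Γ) := by
      rw [Finset.coe_union]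
      exact disjoint_union_right.2 ⟨h1, hs1⟩
    refine ih (J.erase j) (r ∪ s) (F ∪ {q | q ∈ P j ∧ Disjoint (CH q) (s : Set Γ)})
      (by rw [Finset.card_erase_of_mem hj, hJ]; rfl) (hF.union hs2) ?_ ?_
    · obtain ⟨q, hq, hq'⟩ := (hA n p hp _ hd).exists_notMem_finite (hF.union hs2)
      exact ⟨q, hq.1, hq.2, hq'⟩
    · intro k q hq hqd hqF
      rw [Finset.coe_union, disjoint_union_right] at hqd
      obtain ⟨j', hj', hq'⟩ := h k q hq hqd.1 (fun hh => hqF (Or.inl hh))
      refine ⟨j', Finset.mem_erase.2 ⟨?_, hj'⟩, hq'⟩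
      rintro rfl
      exact hqF (Or.inr ⟨hq', hqd.2⟩)

/-- An uncountable set has a countable subset that is not covered by finitely many discrete sets. -/
theorem exists_not_covered (hc : ∀ p, (CH p).Countable) (Q : Set ι) (hQ : ¬ Q.Countable) :
    ∃ A : Set ι, A ⊆ Q ∧ A.Countable ∧ ∀ (m : ℕ) (P : Fin m → Set ι), (∀ j, Disc CH (P j)) →
      ∃ q ∈ A, ∀ j, q ∉ P j := by
  classical
  choose D hD1 hD2 hD3 using exists_dense CH hc
  let R : ℕ → Set ι := fun n => (fun S => S \ D S)^[n] Q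
  have hR : ∀ n, R (n + 1) = R n \ D (R n) := fun n =>
    Function.iterate_succ_apply' (fun S => S \ D S) n Q
  have hRQ : ∀ n, R n ⊆ Q := by
    intro n
    induction n with
    | zero => exact subset_rfl
    | succ n ih => rw [hR]; exact diff_subset.trans ih
  have hRu : ∀ n, ¬ (R n).Countable := by
    intro n
    induction n with
    | zero => exact hQ
    | succ n ih =>
      rw [hR]
      intro h
      apply ih
      refine (h.union (hD2 (R n))).mono ?_
      intro x hx
      by_cases h' : x ∈ D (R n)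
      · exact Or.inr h'
      · exact Or.inl ⟨hx, h'⟩
  have hacc : ∀ k, ∀ p ∈ R (k + 1), Acc CH p (D (R k)) := by
    intro k p hp
    rw [hR] at hp
    exact hD3 _ p hp.1 hp.2
  refine ⟨⋃ n, D (R n), iUnion_subset fun n => (hD1 _).trans (hRQ n),
    countable_iUnion fun n => hD2 _, ?_⟩
  intro m P hP
  by_contra hcon
  push Not at hcon
  refine height CH P hP (fun n => D (R n)) (fun k p hp => hacc k p (hD1 _ hp)) m
    Finset.univ ∅ ∅ (by simp) finite_empty ?_ ?_
  · have : (R (m + 1)).Nonempty := by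
      by_contra h
      rw [not_nonempty_iff_eq_empty] at h
      exact hRu (m + 1) (h ▸ countable_empty)
    obtain ⟨p, hp⟩ := this
    obtain ⟨q, hq⟩ := (hacc m p hp ∅ (by simp)).nonempty
    exact ⟨q, hq.1, by simp, by simp⟩
  · intro k q hq _ _
    obtain ⟨j, hj⟩ := hcon q (mem_iUnion.2 ⟨k, hq⟩)
    exact ⟨j, Finset.mem_univ _, hj⟩

end Acc

section Cover

variable {X : Type} (ch : X → Set X)

/-- A family of pairwise disjoint `m`-sets has a countable subfamily not pierced by a discrete set. -/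
theorem not_pierced (hc : ∀ x, (ch x).Countable) (Z : Set X) (hZ : ¬ Z.Countable)
    (s : X → Finset X) (m : ℕ) (hs : ∀ y ∈ Z, (s y).card = m)
    (hd : Z.Pairwise fun y y' => Disjoint (s y) (s y')) :
    ∃ A : Set X, A ⊆ Z ∧ A.Countable ∧ ∀ D : Set X, Disc ch D →
      ∃ y ∈ A, Disjoint D (s y : Set X) := by
  classical
  have h1 : ∀ y : Z, ∃ a : Fin m → X, (∀ i, a i ∈ s y) ∧ ∀ c ∈ s y, ∃ i, a i = c := by
    intro y
    let e := (s y).equivFinOfCardEq (hs y y.2)
    refine ⟨fun i => (e.symm i : X), fun i => (e.symm i).2, fun c hc => ⟨e ⟨c, hc⟩, by simp⟩⟩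
  choose a ha1 ha2 using h1
  have hinj : ∀ i, Function.Injective fun y : Z => a y i := by
    intro i y y' h
    by_contra hne
    have hne' : (y : X) ≠ y' := fun h => hne (Subtype.ext h)
    have := hd y.2 y'.2 hne'
    have h' : a y i = a y' i := h
    exact Finset.disjoint_left.1 this (ha1 y i) (h' ▸ ha1 y' i)
  let CH : Z → Set (Fin m × X) := fun y => {g | g.2 ∈ ch (a y g.1)}
  have hCH : ∀ y, (CH y).Countable := by
    intro y
    have : CH y ⊆ ⋃ i : Fin m, (fun c => (i, c)) '' ch (a y i) := by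
      rintro ⟨i, c⟩ h
      exact mem_iUnion.2 ⟨i, c, h, rfl⟩
    exact (countable_iUnion fun i => (hc _).image _).mono this
  have hu : ¬ (univ : Set Z).Countable := by
    intro h
    exact hZ (countable_coe_iff.1 (countable_univ_iff.1 h))
  obtain ⟨A, -, hA2, hA3⟩ := exists_not_covered CH hCH univ hu
  refine ⟨Subtype.val '' A, by rintro _ ⟨y, -, rfl⟩; exact y.2, hA2.image _, ?_⟩
  intro D hD
  obtain ⟨q, hq, hq'⟩ := hA3 m (fun i => {y | a y i ∈ D}) (by
    intro i p hp
    obtain ⟨r, hr1, hr2⟩ := hD _ hp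
    refine ⟨r.image fun c => (i, c), ?_, ?_⟩
    · rw [Set.disjoint_right]
      intro g hg
      simp only [Finset.coe_image, mem_image] at hg
      obtain ⟨c, hc, rfl⟩ := hg
      exact Set.disjoint_right.1 hr1 hc
    · refine (hr2.preimage (f := fun y : Z => a y i) (hinj i).injOn).subset ?_
      intro y hy
      refine ⟨hy.1, ?_⟩
      rw [Set.disjoint_right]
      intro c hc hc'
      have hmem : (i, c) ∈ ((r.image fun c => (i, c) : Finset (Fin m × X)) : Set (Fin m × X)) := by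
        simp only [Finset.coe_image, mem_image]
        exact ⟨c, hc, rfl⟩
      exact Set.disjoint_right.1 hy.2 hmem hc')
  refine ⟨q, ⟨q, hq, rfl⟩, ?_⟩
  rw [Set.disjoint_right]
  intro c hc hcD
  obtain ⟨i, rfl⟩ := ha2 q c hc
  exact hq' i hcD

theorem cover_card (hc : ∀ x, (ch x).Countable) (hdisc : ∀ x, Disc ch (ch x)) (n : ℕ) :
    ∀ (Y : Set X) (s : X → Finset X) (F : X → Set X), (∀ y, (F y).Finite) →
      (∀ y ∈ Y, (s y).card = n) → (∀ y ∈ Y, Disjoint (ch y) (s y : Set X)) →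
      ∃ Y0 : Set X, Y0 ⊆ Y ∧ Y0.Countable ∧
        ∀ x ∈ Y, x ∈ Y0 ∨ ∃ y ∈ Y0, Disjoint (ch x) (s y : Set X) ∧ x ∉ F y := by
  classical
  induction n with
  | zero =>
    intro Y s F hF hs hd
    rcases Y.eq_empty_or_nonempty with rfl | ⟨y, hy⟩
    · exact ⟨∅, subset_rfl, countable_empty, by simp⟩
    · refine ⟨insert y (F y ∩ Y), ?_, ((hF y).inter_of_left _).countable.insert _, ?_⟩
      · exact insert_subset hy inter_subset_right
      · intro x hx
        by_cases h : x ∈ F y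
        · exact Or.inl (Or.inr ⟨h, hx⟩)
        · refine Or.inr ⟨y, Or.inl rfl, ?_, h⟩
          rw [Finset.card_eq_zero.1 (hs y hy)]
          simp
  | succ n ih =>
    intro Y s F hF hs hd
    obtain ⟨Z, hZ⟩ := zorn_subset
      {Z : Set X | Z ⊆ Y ∧ Z.Pairwise fun y y' => Disjoint (s y) (s y')} (by
        intro c hc1 hc2
        refine ⟨⋃₀ c, ⟨sUnion_subset fun t ht => (hc1 ht).1, ?_⟩, fun t ht => subset_sUnion_of_mem ht⟩
        rintro y ⟨t, ht, hy⟩ y' ⟨t', ht', hy'⟩ hne
        rcases hc2.total ht ht' with h | h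
        · exact (hc1 ht').2 (h hy) hy' hne
        · exact (hc1 ht).2 hy (h hy') hne)
    by_cases hZc : Z.Countable
    · let C : Set X := ⋃ z ∈ Z, (s z : Set X)
      have hC : C.Countable := hZc.biUnion fun z _ => (s z).finite_toSet.countable
      have hpierce : ∀ y ∈ Y, ∃ c ∈ C, c ∈ s y := by
        intro y hy
        by_contra hcon
        push Not at hcon
        have hdz : ∀ z ∈ Z, Disjoint (s y) (s z) := by
          intro z hz
          rw [Finset.disjoint_right]
          intro c hc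
          exact hcon c (mem_biUnion hz hc)
        have hmem : insert y Z ∈
            {Z : Set X | Z ⊆ Y ∧ Z.Pairwise fun y y' => Disjoint (s y) (s y')} := by
          refine ⟨insert_subset hy hZ.prop.1, ?_⟩
          refine hZ.prop.2.insert ?_
          intro z hz _
          exact ⟨hdz z hz, (hdz z hz).symm⟩
        have hyZ : y ∈ Z := hZ.le_of_ge hmem (subset_insert _ _) (mem_insert _ _)
        have h0 := hdz y hyZ
        rw [disjoint_self] at h0
        have := hs y hy
        rw [h0] at this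
        simp at this
      have h2 : ∀ c : X, ∃ Y0 : Set X, Y0 ⊆ {y | y ∈ Y ∧ c ∈ s y} ∧ Y0.Countable ∧
          ∀ x ∈ {y | y ∈ Y ∧ c ∈ s y}, x ∈ Y0 ∨
            ∃ y ∈ Y0, Disjoint (ch x) ((s y).erase c : Set X) ∧ x ∉ F y := by
        intro c
        refine ih _ (fun y => (s y).erase c) F hF ?_ ?_
        · intro y hy
          rw [Finset.card_erase_of_mem hy.2, hs y hy.1]
          rfl
        · intro y hy
          exact (hd y hy.1).mono_right (by simp)
      choose W hW1 hW2 hW3 using h2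
      refine ⟨⋃ c ∈ C, W c, ?_, hC.biUnion fun c _ => hW2 c, ?_⟩
      · intro x hx
        simp only [mem_iUnion] at hx
        obtain ⟨c, -, hx⟩ := hx
        exact (hW1 c hx).1
      · intro x hx
        obtain ⟨c, hcC, hcx⟩ := hpierce x hx
        rcases hW3 c x ⟨hx, hcx⟩ with h | ⟨y, hy, h1, h2⟩
        · exact Or.inl (mem_biUnion hcC h)
        · refine Or.inr ⟨y, mem_biUnion hcC hy, ?_, h2⟩
          rw [Set.disjoint_left]
          intro g hg hgy
          by_cases hgc : g = c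
          · subst hgc
            exact Set.disjoint_left.1 (hd x hx) hg hcx
          · exact Set.disjoint_left.1 h1 hg (by simpa using ⟨hgy, hgc⟩)
    · obtain ⟨A, hA1, hA2, hA3⟩ := not_pierced ch hc Z hZc s (n + 1)
        (fun y hy => hs y (hZ.prop.1 hy)) hZ.prop.2
      refine ⟨A ∪ ((⋃ y ∈ A, F y) ∩ Y), union_subset (hA1.trans hZ.prop.1) inter_subset_right,
        hA2.union ((hA2.biUnion fun y _ => (hF y).countable).mono inter_subset_left), ?_⟩
      intro x hx
      obtain ⟨y, hy, hy'⟩ := hA3 (ch x) (hdisc x)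
      by_cases h : x ∈ F y
      · exact Or.inl (Or.inr ⟨mem_biUnion hy h, hx⟩)
      · exact Or.inr ⟨y, Or.inl hy, hy', h⟩

theorem cover (hc : ∀ x, (ch x).Countable) (hdisc : ∀ x, Disc ch (ch x))
    (Y : Set X) (s : X → Finset X) (F : X → Set X) (hF : ∀ y, (F y).Finite)
    (hd : ∀ y ∈ Y, Disjoint (ch y) (s y : Set X)) :
    ∃ Y0 : Set X, Y0 ⊆ Y ∧ Y0.Countable ∧
      ∀ x ∈ Y, x ∈ Y0 ∨ ∃ y ∈ Y0, Disjoint (ch x) (s y : Set X) ∧ x ∉ F y := by
  choose W hW1 hW2 hW3 using fun n => cover_card ch hc hdisc n {y | y ∈ Y ∧ (s y).card = n} s F hF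
    (fun y hy => hy.2) (fun y hy => hd y hy.1)
  refine ⟨⋃ n, W n, iUnion_subset fun n x hx => (hW1 n hx).1, countable_iUnion hW2, ?_⟩
  intro x hx
  rcases hW3 _ x ⟨hx, rfl⟩ with h | ⟨y, hy, h⟩
  · exact Or.inl (mem_iUnion.2 ⟨_, h⟩)
  · exact Or.inr ⟨y, mem_iUnion.2 ⟨_, hy⟩, h⟩

end Cover

end H299Dual
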