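import Pool.Agent.H299Z.Dual.Comb

set_option autoImplicit false

namespace H299Dual

open Set

section Acc

variable {ι Γ : Type} (CH : ι → Set Γ)

/-- every infinite countable set is finally dense -/
def Fin' : Prop :=
  ∀ N : Set ι, N.Countable → N.Infinite → ∃ G : Set Γ, G.Countable ∧
    ∀ (p : ι) (r : Finset Γ), Disjoint G (r : Set Γ) → Disjoint (CH p) (r : Set Γ) →
      {q | q ∈ N ∧ Disjoint (CH q) (r : Set Γ)}.Infinite

theorem exists_dense' (hc : Fin' CH) (Q : Set ι) :
    ∃ A : Set ι, A ⊆ Q ∧ A.Countable ∧ ∀ p ∈ Q, p ∉ A → Acc CH p A := by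
  classical
  choose N hN1 hN2 hN3 hN4 using
    fun r : Finset Γ => exists_small {q | q ∈ Q ∧ Disjoint (CH q) (r : Set Γ)}
  have h0 : ∀ r : Finset Γ, ∃ G : Set Γ, G.Countable ∧ ((N r).Infinite →
      ∀ (p : ι) (r' : Finset Γ), Disjoint G (r' : Set Γ) → Disjoint (CH p) (r' : Set Γ) →
        {q | q ∈ N r ∧ Disjoint (CH q) (r' : Set Γ)}.Infinite) := by
    intro r
    by_cases h : (N r).Infinite
    · obtain ⟨G, h1, h2⟩ := hc (N r) (hN2 r) h
      exact ⟨G, h1, fun _ => h2⟩
    · exact ⟨∅, countable_empty, fun h' => (h h').elim⟩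
  choose K hK1 hK2 using h0
  let step : Set Γ → Set Γ := fun B => B ∪ ⋃ r ∈ {r : Finset Γ | (r : Set Γ) ⊆ B}, K r
  let G : ℕ → Set Γ := fun n => step^[n] ∅
  have hG : ∀ n, G (n + 1) = step (G n) := fun n => Function.iterate_succ_apply' step n ∅
  have hfin : ∀ B : Set Γ, B.Countable → {r : Finset Γ | (r : Set Γ) ⊆ B}.Countable := by
    intro B hB
    have := countable_ofPred_finite_subset hB
    refine (this.preimage_of_injOn (f := fun r : Finset Γ => (r : Set Γ))
      (fun a _ b _ h => Finset.coe_injective h)).mono ?_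
    intro r hr
    exact ⟨r.finite_toSet, hr⟩
  have hcount : ∀ n, (G n).Countable := by
    intro n
    induction n with
    | zero => exact countable_empty
    | succ n ih =>
      rw [hG]
      exact ih.union ((hfin _ ih).biUnion fun r _ => hK1 r)
  have hmono : Monotone G := by
    apply monotone_nat_of_le_succ
    intro n
    rw [hG]
    exact subset_union_left
  let GG : Set Γ := ⋃ n, G n
  have hGG : GG.Countable := countable_iUnion hcount
  refine ⟨⋃ r ∈ {r : Finset Γ | (r : Set Γ) ⊆ GG}, N r, ?_,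
    (hfin _ hGG).biUnion fun r _ => hN2 r, ?_⟩
  · intro x hx
    simp only [mem_iUnion] at hx
    obtain ⟨r, -, hx⟩ := hx
    exact (hN1 r hx).1
  intro p hp hpA r hr
  let r' : Finset Γ := r.filter (fun γ => γ ∈ GG)
  let r'' : Finset Γ := r.filter (fun γ => γ ∉ GG)
  have hr'G : (r' : Set Γ) ⊆ GG := fun γ hγ => (Finset.mem_filter.1 hγ).2
  have hex : ∃ n, (r' : Set Γ) ⊆ G n := by
    have h1 : ∀ γ ∈ r', ∃ n, γ ∈ G n := fun γ hγ => mem_iUnion.1 (hr'G hγ)
    choose! f hf using h1
    exact ⟨r'.sup f, fun γ hγ => hmono (Finset.le_sup (f := f) hγ) (hf γ hγ)⟩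
  obtain ⟨n, hn⟩ := hex
  have hKG : K r' ⊆ GG := by
    intro x hx
    refine mem_iUnion.2 ⟨n + 1, ?_⟩
    rw [hG]
    right
    simp only [mem_iUnion]
    exact ⟨r', hn, hx⟩
  have hNA : N r' ⊆ ⋃ r ∈ {r : Finset Γ | (r : Set Γ) ⊆ GG}, N r :=
    fun x hx => mem_biUnion (s := {r : Finset Γ | (r : Set Γ) ⊆ GG}) hr'G hx
  have hr'r : (r' : Set Γ) ⊆ r := fun γ hγ => (Finset.mem_filter.1 hγ).1
  have hr''r : (r'' : Set Γ) ⊆ r := fun γ hγ => (Finset.mem_filter.1 hγ).1
  have hinf : {q | q ∈ Q ∧ Disjoint (CH q) (r' : Set Γ)}.Infinite := by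
    intro hfin
    exact hpA (hNA (hN3 r' hfin ⟨hp, hr.mono_right hr'r⟩))
  have hd : Disjoint (K r') (r'' : Set Γ) := by
    rw [Set.disjoint_left]
    intro γ h1 h2
    exact (Finset.mem_filter.1 h2).2 (hKG h1)
  refine (hK2 r' (hN4 r' hinf) p r'' hd (hr.mono_right hr''r)).mono ?_
  intro q hq
  refine ⟨hNA hq.1, ?_⟩
  rw [Set.disjoint_left]
  intro γ hγ hγr
  by_cases h : γ ∈ GG
  · exact Set.disjoint_left.1 (hN1 r' hq.1).2 hγ (Finset.mem_filter.2 ⟨hγr, h⟩)
  · exact Set.disjoint_left.1 hq.2 hγ (Finset.mem_filter.2 ⟨hγr, h⟩)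

theorem disc_of_finite {F : Set ι} (hF : F.Finite) : Disc CH F :=
  fun _ _ => ⟨∅, by simp, hF.subset fun _ h => h.1⟩

theorem exists_not_covered' (hc : Fin' CH) (Q : Set ι) (hQ : ¬ Q.Countable) :
    ∃ A : Set ι, A ⊆ Q ∧ A.Countable ∧ ∀ (m : ℕ) (P : Fin m → Set ι), (∀ j, Disc CH (P j)) →
      {q | q ∈ A ∧ ∀ j, q ∉ P j}.Infinite := by
  classical
  choose D hD1 hD2 hD3 using exists_dense' CH hc
  let R : ℕ → Set ι := fun n => (fun S => S \ D S)^[n] Q
  have hR : ∀ n, R (n + 1) = R n \ D (R n) := fun n =>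
    Function.iterate_succ_apply' (fun S => S \ D S) n Q
  have hRQ : ∀ n, R n ⊆ Q := by
    intro n
    induction n with
    | zero => exact subset_rfl
    | succ n ih => rw [hR]; exact sdiff_subset.trans ih
  have hRu : ∀ n, ¬ (R n).Countable := by
    intro n
    induction n with
    | zero => exact hQ
    | succ n ih =>
      rw [hR]
      intro h
      apply ih
      refine (h.union (hD2 (R n))).mono ?_
      intro x hx
      by_cases h' : x ∈ D (R n)
      · exact Or.inr h'
      · exact Or.inl ⟨hx, h'⟩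
  have hacc : ∀ k, ∀ p ∈ R (k + 1), Acc CH p (D (R k)) := by
    intro k p hp
    rw [hR] at hp
    exact hD3 _ p hp.1 hp.2
  refine ⟨⋃ n, D (R n), iUnion_subset fun n => (hD1 _).trans (hRQ n),
    countable_iUnion fun n => hD2 _, ?_⟩
  intro m P hP hfin
  refine height CH P hP (fun n => D (R n)) (fun k p hp => hacc k p (hD1 _ hp)) m
    Finset.univ ∅ _ (by simp) hfin ?_ ?_
  · have : (R (m + 1)).Nonempty := by
      by_contra h
      rw [not_nonempty_iff_eq_empty] at h
      exact hRu (m + 1) (h ▸ countable_empty)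
    obtain ⟨p, hp⟩ := this
    obtain ⟨q, hq, hq'⟩ := (hacc m p hp ∅ (by simp)).exists_notMem_finite hfin
    exact ⟨q, hq.1, by simp, hq'⟩
  · intro k q hq _ hq'
    by_contra hcon
    push Not at hcon
    exact hq' ⟨mem_iUnion.2 ⟨k, hq⟩, fun j => hcon j (Finset.mem_univ _)⟩

end Acc

/-- Recursion along a well-order. -/
theorem exists_rec {I : Type} [LinearOrder I] [WellFoundedLT I] {X : Type} [Inhabited X]
    (Phi : I → (I → X) → X → Prop)
    (hloc : ∀ i (D D' : I → X) x, (∀ j, j < i → D j = D' j) → Phi i D x → Phi i D' x)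
    (hex : ∀ i D, ∃ x, Phi i D x) : ∃ D : I → X, ∀ i, Phi i D (D i) := by
  classical
  let step : (i : I) → ((j : I) → j < i → X) → X := fun i D =>
    Classical.choose (hex i (fun j => if h : j < i then D j h else default))
  let D : I → X := WellFounded.fix (wellFounded_lt (α := I)) step
  refine ⟨D, fun i => ?_⟩
  have h1 : D i = step i (fun j _ => D j) := WellFounded.fix_eq _ _ _
  have h2 : Phi i (fun j => if h : j < i then D j else default) (step i (fun j _ => D j)) :=
    Classical.choose_spec (hex i (fun j => if h : j < i then D j else default))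
  rw [← h1] at h2
  refine hloc i _ _ _ ?_ h2
  intro j hj
  simp [hj]

/-- A function extending infinitely many members of each of countably many infinite families of
finite partial functions with pairwise disjoint domains. -/
theorem exists_generic {V τ : Type} (T : Set τ) (hT : T.Countable) (S : τ → Set ℕ)
    (s : τ → ℕ → Finset V) (φ : τ → ℕ → V → Bool) :
    ∃ g : V → Bool, ∀ t ∈ T, (S t).Infinite →
      ((S t).Pairwise fun n n' => Disjoint (s t n) (s t n')) →
      {n | n ∈ S t ∧ ∀ v ∈ s t n, g v = φ t n v}.Infinite := by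
  classical
  let T' : Set τ := {t | t ∈ T ∧ (S t).Infinite ∧
    (S t).Pairwise fun n n' => Disjoint (s t n) (s t n')}
  have hT' : T'.Countable := hT.mono fun _ h => h.1
  haveI := hT'.to_subtype
  let O : T' × ℕ → Set (V → Bool) := fun x =>
    {g | ∃ n, n ∈ S x.1 ∧ x.2 ≤ n ∧ ∀ v ∈ s x.1 n, g v = φ x.1 n v}
  have hopen : ∀ x, IsOpen (O x) := by
    intro x
    have : O x = ⋃ n ∈ {n | n ∈ S x.1 ∧ x.2 ≤ n}, ⋂ v ∈ s x.1 n, {g : V → Bool | g v = φ x.1 n v} := by
      ext g
      simp [O, and_assoc]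
    rw [this]
    refine isOpen_biUnion fun n _ => isOpen_biInter_finset fun v _ => ?_
    change IsOpen ((fun g : V → Bool => g v) ⁻¹' {φ x.1 n v})
    exact (isOpen_discrete _).preimage (continuous_apply v)
  have hdense : ∀ x, Dense (O x) := by
    rintro ⟨⟨t, ht⟩, k⟩
    rw [dense_iff_inter_open]
    rintro U hU ⟨g, hg⟩
    obtain ⟨I, u, hu1, hu2⟩ := isOpen_pi_iff.1 hU g hg
    have hfin : {n | n ∈ S t ∧ ¬ Disjoint (s t n) I}.Finite := by
      have : {n | n ∈ S t ∧ ¬ Disjoint (s t n) I} ⊆ ⋃ v ∈ (I : Set V), {n | n ∈ S t ∧ v ∈ s t n} := by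
        intro n hn
        obtain ⟨v, hv1, hv2⟩ := Finset.not_disjoint_iff.1 hn.2
        exact mem_biUnion (s := (I : Set V)) hv2 ⟨hn.1, hv1⟩
      refine (I.finite_toSet.biUnion fun v _ => ?_).subset this
      refine Set.Subsingleton.finite ?_
      intro n hn n' hn'
      by_contra hne
      exact Finset.disjoint_left.1 (ht.2.2 hn.1 hn'.1 hne) hn.2 hn'.2
    obtain ⟨n, hn, hn'⟩ := ht.2.1.exists_notMem_finite (hfin.union (finite_lt_nat k))
    simp only [mem_union, mem_setOf_eq, not_or, not_and, not_not, not_lt] at hn'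
    refine ⟨fun v => if v ∈ s t n then φ t n v else g v, hu2 ?_, n, hn, hn'.2, ?_⟩
    · intro v hv
      have : v ∉ s t n := Finset.disjoint_right.1 (hn'.1 hn) hv
      simp only [this, if_false]
      exact (hu1 v hv).2
    · intro v hv
      have : v ∈ s t n := hv
      simp only [this, if_true]
  obtain ⟨g, hg⟩ := (dense_iInter_of_isOpen hopen hdense).nonempty
  refine ⟨g, fun t ht h1 h2 => ?_⟩
  refine infinite_of_forall_exists_gt fun k => ?_
  obtain ⟨n, hn1, hn2, hn3⟩ := mem_iInter.1 hg (⟨t, ht, h1, h2⟩, k + 1)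
  exact ⟨n, ⟨hn1, hn3⟩, hn2⟩

end H299Dual
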