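import Pool.Agent.H299Z.Dual.Space

set_option autoImplicit false

namespace H299Dual

open Set

section

variable {X Γ : Type} (CH : X → Set Γ)

theorem not_pierced2 (hc : ∀ x, (CH x).Countable) (Z : Set X) (hZ : ¬ Z.Countable)
    (s : X → Finset X) (m : ℕ) (hs : ∀ y ∈ Z, (s y).card = m)
    (hd : Z.Pairwise fun y y' => Disjoint (s y) (s y')) :
    ∃ A : Set X, A ⊆ Z ∧ A.Countable ∧ ∀ D : Set X, Disc CH D →
      ∃ y ∈ A, Disjoint D (s y : Set X) := by
  classical
  have h1 : ∀ y : Z, ∃ a : Fin m → X, (∀ i, a i ∈ s y) ∧ ∀ c ∈ s y, ∃ i, a i = c := by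
    intro y
    let e := (s y).equivFinOfCardEq (hs y y.2)
    refine ⟨fun i => (e.symm i : X), fun i => (e.symm i).2, fun c hc => ⟨e ⟨c, hc⟩, by simp⟩⟩
  choose a ha1 ha2 using h1
  have hinj : ∀ i, Function.Injective fun y : Z => a y i := by
    intro i y y' h
    by_contra hne
    have hne' : (y : X) ≠ y' := fun h => hne (Subtype.ext h)
    have := hd y.2 y'.2 hne'
    have h' : a y i = a y' i := h
    exact Finset.disjoint_left.1 this (ha1 y i) (h' ▸ ha1 y' i)
  let CH' : Z → Set (Fin m × Γ) := fun y => {g | g.2 ∈ CH (a y g.1)}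
  have hCH : ∀ y, (CH' y).Countable := by
    intro y
    have : CH' y ⊆ ⋃ i : Fin m, (fun c => (i, c)) '' CH (a y i) := by
      rintro ⟨i, c⟩ h
      exact mem_iUnion.2 ⟨i, c, h, rfl⟩
    exact (countable_iUnion fun i => (hc _).image _).mono this
  have hu : ¬ (univ : Set Z).Countable := by
    intro h
    exact hZ (countable_coe_iff.1 (countable_univ_iff.1 h))
  obtain ⟨A, -, hA2, hA3⟩ := exists_not_covered CH' hCH univ hu
  refine ⟨Subtype.val '' A, by rintro _ ⟨y, -, rfl⟩; exact y.2, hA2.image _, ?_⟩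
  intro D hD
  obtain ⟨q, hq, hq'⟩ := hA3 m (fun i => {y | a y i ∈ D}) (by
    intro i p hp
    obtain ⟨r, hr1, hr2⟩ := hD _ hp
    refine ⟨r.image fun c => (i, c), ?_, ?_⟩
    · rw [Set.disjoint_right]
      intro g hg
      simp only [Finset.coe_image, mem_image] at hg
      obtain ⟨c, hc, rfl⟩ := hg
      exact Set.disjoint_right.1 hr1 hc
    · refine (hr2.preimage (f := fun y : Z => a y i) (hinj i).injOn).subset ?_
      intro y hy
      refine ⟨hy.1, ?_⟩
      rw [Set.disjoint_right]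
      intro c hc hc'
      have hmem : (i, c) ∈ ((r.image fun c => (i, c) : Finset (Fin m × Γ)) : Set (Fin m × Γ)) := by
        simp only [Finset.coe_image, mem_image]
        exact ⟨c, hc, rfl⟩
      exact Set.disjoint_right.1 hy.2 hmem hc')
  refine ⟨q, ⟨q, hq, rfl⟩, ?_⟩
  rw [Set.disjoint_right]
  intro c hc hcD
  obtain ⟨i, rfl⟩ := ha2 q c hc
  exact hq' i hcD

variable (ch : X → Set X)

theorem cover_card2 (hc : ∀ x, (CH x).Countable) (n : ℕ) :
    ∀ (Y : Set X) (s : X → Finset X), (∀ y ∈ Y, Disc CH (ch y)) →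
      (∀ y ∈ Y, (s y).card = n) → (∀ y ∈ Y, Disjoint (ch y) (s y : Set X)) →
      ∃ Y0 : Set X, Y0 ⊆ Y ∧ Y0.Countable ∧ ∀ x ∈ Y, ∃ y ∈ Y0, Disjoint (ch x) (s y : Set X) := by
  classical
  induction n with
  | zero =>
    intro Y s _ hs hd
    rcases Y.eq_empty_or_nonempty with rfl | ⟨y, hy⟩
    · exact ⟨∅, subset_rfl, countable_empty, by simp⟩
    · refine ⟨{y}, singleton_subset_iff.2 hy, countable_singleton y, fun x _ => ⟨y, rfl, ?_⟩⟩
      rw [Finset.card_eq_zero.1 (hs y hy)]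
      simp
  | succ n ih =>
    intro Y s hY hs hd
    obtain ⟨Z, hZ⟩ := zorn_subset
      {Z : Set X | Z ⊆ Y ∧ Z.Pairwise fun y y' => Disjoint (s y) (s y')} (by
        intro c hc1 hc2
        refine ⟨⋃₀ c, ⟨sUnion_subset fun t ht => (hc1 ht).1, ?_⟩, fun t ht => subset_sUnion_of_mem ht⟩
        rintro y ⟨t, ht, hy⟩ y' ⟨t', ht', hy'⟩ hne
        rcases hc2.total ht ht' with h | h
        · exact (hc1 ht').2 (h hy) hy' hne
        · exact (hc1 ht).2 hy (h hy') hne)
    by_cases hZc : Z.Countable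
    · let C : Set X := ⋃ z ∈ Z, (s z : Set X)
      have hC : C.Countable := hZc.biUnion fun z _ => (s z).finite_toSet.countable
      have hpierce : ∀ y ∈ Y, ∃ c ∈ C, c ∈ s y := by
        intro y hy
        by_contra hcon
        push Not at hcon
        have hdz : ∀ z ∈ Z, Disjoint (s y) (s z) := by
          intro z hz
          rw [Finset.disjoint_right]
          intro c hc
          exact hcon c (mem_biUnion hz hc)
        have hmem : insert y Z ∈
            {Z : Set X | Z ⊆ Y ∧ Z.Pairwise fun y y' => Disjoint (s y) (s y')} := by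
          refine ⟨insert_subset hy hZ.prop.1, ?_⟩
          refine hZ.prop.2.insert ?_
          intro z hz _
          exact ⟨hdz z hz, (hdz z hz).symm⟩
        have hyZ : y ∈ Z := hZ.le_of_ge hmem (subset_insert _ _) (mem_insert _ _)
        have h0 := hdz y hyZ
        rw [disjoint_self] at h0
        have := hs y hy
        rw [h0] at this
        simp at this
      have h2 : ∀ c : X, ∃ Y0 : Set X, Y0 ⊆ {y | y ∈ Y ∧ c ∈ s y} ∧ Y0.Countable ∧
          ∀ x ∈ {y | y ∈ Y ∧ c ∈ s y}, ∃ y ∈ Y0, Disjoint (ch x) ((s y).erase c : Set X) := by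
        intro c
        refine ih _ (fun y => (s y).erase c) (fun y hy => hY y hy.1) ?_ ?_
        · intro y hy
          rw [Finset.card_erase_of_mem hy.2, hs y hy.1]
          rfl
        · intro y hy
          exact (hd y hy.1).mono_right (by simp)
      choose W hW1 hW2 hW3 using h2
      refine ⟨⋃ c ∈ C, W c, ?_, hC.biUnion fun c _ => hW2 c, ?_⟩
      · intro x hx
        simp only [mem_iUnion] at hx
        obtain ⟨c, -, hx⟩ := hx
        exact (hW1 c hx).1
      · intro x hx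
        obtain ⟨c, hcC, hcx⟩ := hpierce x hx
        obtain ⟨y, hy, h1⟩ := hW3 c x ⟨hx, hcx⟩
        refine ⟨y, mem_biUnion hcC hy, ?_⟩
        rw [Set.disjoint_left]
        intro g hg hgy
        by_cases hgc : g = c
        · subst hgc
          exact Set.disjoint_left.1 (hd x hx) hg hcx
        · exact Set.disjoint_left.1 h1 hg (by simpa using ⟨hgy, hgc⟩)
    · obtain ⟨A, hA1, hA2, hA3⟩ := not_pierced2 CH hc Z hZc s (n + 1)
        (fun y hy => hs y (hZ.prop.1 hy)) hZ.prop.2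
      exact ⟨A, hA1.trans hZ.prop.1, hA2, fun x hx => hA3 (ch x) (hY x hx)⟩

/-- The topology generated by the sets `{y | g ∉ CH y}`. -/
def top2 : TopologicalSpace X where
  IsOpen U := ∀ x ∈ U, ∃ s : Finset Γ, Disjoint (CH x) (s : Set Γ) ∧
    ∀ y, Disjoint (CH y) (s : Set Γ) → y ∈ U
  isOpen_univ := fun _ _ => ⟨∅, by simp, fun _ _ => trivial⟩
  isOpen_inter := by
    classical
    intro U V hU hV x hx
    obtain ⟨s, h2, h4⟩ := hU x hx.1
    obtain ⟨s', h2', h4'⟩ := hV x hx.2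
    refine ⟨s ∪ s', ?_, ?_⟩
    · rw [Finset.coe_union]
      exact disjoint_union_right.2 ⟨h2, h2'⟩
    · intro y hy
      rw [Finset.coe_union, disjoint_union_right] at hy
      exact ⟨h4 y hy.1, h4' y hy.2⟩
  isOpen_sUnion := by
    rintro S hS x ⟨U, hU, hx⟩
    obtain ⟨s, h2, h4⟩ := hS U hU x hx
    exact ⟨s, h2, fun y hy => ⟨U, hU, h4 y hy⟩⟩

theorem top2_open (g : Γ) : @IsOpen X (top2 CH) {y | g ∉ CH y} := by
  intro x hx
  exact ⟨{g}, by simpa using hx, fun y hy => by simpa using hy⟩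

end

/-- the set of paths of a tree -/
def T.enc : T → Set (List ℕ)
  | .leaf => ∅
  | .node f => {l | l = [] ∨ ∃ n l', l = n :: l' ∧ l' ∈ (f n).enc}

theorem T.enc_injective : Function.Injective T.enc := by
  intro x
  induction x with
  | leaf =>
    intro y h
    cases y with
    | leaf => rfl
    | node g =>
      have : [] ∈ (T.node g).enc := Or.inl rfl
      rw [← h] at this
      exact this.elim
  | node f ih =>
    intro y h
    cases y with
    | leaf =>
      have : [] ∈ (T.node f).enc := Or.inl rfl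
      rw [h] at this
      exact this.elim
    | node g =>
      congr 1
      funext n
      apply ih n
      ext l
      have : n :: l ∈ (T.node f).enc ↔ n :: l ∈ (T.node g).enc := by rw [h]
      simpa [T.enc] using this

/-- violated conditions -/
def T.CH (x : T) : Set (T ⊕ List ℕ × Bool) :=
  {g | Sum.elim (fun c => c ∈ x.ch) (fun p => (p.1 ∈ x.enc ↔ p.2 = false)) g}

theorem T.countable_CH (x : T) : x.CH.Countable := by
  have : x.CH ⊆ Sum.inl '' x.ch ∪ range Sum.inr := by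
    rintro (c | p) h
    · exact Or.inl ⟨c, h, rfl⟩
    · exact Or.inr ⟨p, rfl⟩
  exact ((x.countable_ch.image _).union (countable_range _)).mono this

theorem t2_T : @T2Space T (top2 T.CH) := by
  letI := top2 T.CH
  refine ⟨fun x y hxy => ?_⟩
  have h1 : ∃ l, ¬ (l ∈ x.enc ↔ l ∈ y.enc) := by
    by_contra h
    push Not at h
    exact hxy (T.enc_injective (Set.ext h))
  obtain ⟨l, hl⟩ := h1
  have hdis : ∀ b : Bool, Disjoint {z : T | Sum.inr (l, b) ∉ z.CH} {z : T | Sum.inr (l, !b) ∉ z.CH} := by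
    intro b
    rw [Set.disjoint_left]
    intro z h1 h2
    cases b <;> simp [T.CH] at h1 h2 <;> tauto
  by_cases hx : l ∈ x.enc
  · have hy : l ∉ y.enc := fun h => hl ⟨fun _ => h, fun _ => hx⟩
    exact ⟨_, _, top2_open T.CH _, top2_open T.CH _, by simpa [T.CH] using hx,
      by simpa [T.CH] using hy, hdis true⟩
  · have hy : l ∈ y.enc := by
      by_contra h
      exact hl ⟨fun h' => (hx h').elim, fun h' => (h h').elim⟩
    exact ⟨_, _, top2_open T.CH _, top2_open T.CH _, by simpa [T.CH] using hx,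
      by simpa [T.CH] using hy, hdis false⟩

theorem cover2 (Y : Set T) (hY : ∀ y ∈ Y, Disc T.CH y.ch) (s : T → Finset (T ⊕ List ℕ × Bool))
    (hs : ∀ y ∈ Y, Disjoint y.CH (s y : Set (T ⊕ List ℕ × Bool))) :
    ∃ Y0 : Set T, Y0 ⊆ Y ∧ Y0.Countable ∧
      ∀ x ∈ Y, ∃ y ∈ Y0, Disjoint x.CH (s y : Set (T ⊕ List ℕ × Bool)) := by
  choose W hW1 hW2 hW3 using fun k : ℕ × Finset (List ℕ × Bool) =>
    cover_card2 T.CH T.ch T.countable_CH k.1
      {y | y ∈ Y ∧ (s y).toLeft.card = k.1 ∧ (s y).toRight = k.2} (fun y => (s y).toLeft)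
      (fun y hy => hY y hy.1) (fun y hy => hy.2.1) (by
        intro y hy
        rw [Set.disjoint_right]
        intro c hc hc'
        have h1 : Sum.inl c ∈ (s y : Set (T ⊕ List ℕ × Bool)) := by simpa using hc
        exact Set.disjoint_right.1 (hs y hy.1) h1 hc')
  refine ⟨⋃ k, W k, iUnion_subset fun k x hx => (hW1 k hx).1, countable_iUnion hW2, ?_⟩
  intro x hx
  obtain ⟨y, hy, h⟩ := hW3 (_, _) x ⟨hx, rfl, rfl⟩
  refine ⟨y, mem_iUnion.2 ⟨_, hy⟩, ?_⟩
  rw [Set.disjoint_right]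
  rintro (c | p) hg hg'
  · exact Set.disjoint_right.1 h (by simpa using hg) hg'
  · have h1 : p ∈ (s y).toRight := by simpa using hg
    rw [(hW1 _ hy).2.2] at h1
    exact Set.disjoint_right.1 (hs x hx) (by simpa using h1) hg'

theorem main_t2 : ∃ (X : Type) (_ : TopologicalSpace X), T2Space X ∧
    HereditarilyLindelofSpace X ∧ ∃ U : X → Set X, (∀ x, IsOpen (U x) ∧ x ∈ U x) ∧
      ∀ D : Set X, DiscreteTopology D → (⋃ x ∈ D, U x) ≠ univ := by
  letI := top2 T.CH
  haveI := t2_T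
  let X : Set T := {x | Disc T.CH x.ch}
  have hnhd : ∀ {U : Set X}, IsOpen U → ∀ x ∈ U, ∃ s : Finset (T ⊕ List ℕ × Bool),
      Disjoint x.1.CH (s : Set (T ⊕ List ℕ × Bool)) ∧
        ∀ y : X, Disjoint y.1.CH (s : Set (T ⊕ List ℕ × Bool)) → y ∈ U := by
    intro U hU x hx
    obtain ⟨O, hO, rfl⟩ := isOpen_induced_iff.1 hU
    obtain ⟨s, h1, h2⟩ := hO x.1 hx
    exact ⟨s, h1, fun y hy => h2 y.1 hy⟩
  have hHL : HereditarilyLindelofSpace X := by
    refine ⟨fun t _ => isLindelof_of_countable_subcover ?_⟩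
    intro ι U hU ht
    have h4 : ∀ a : T, ∃ s : Finset (T ⊕ List ℕ × Bool), a ∈ Subtype.val '' t →
        Disjoint a.CH (s : Set (T ⊕ List ℕ × Bool)) ∧
        ∃ i, ∀ y : X, Disjoint y.1.CH (s : Set (T ⊕ List ℕ × Bool)) → y ∈ U i := by
      intro a
      by_cases ha : a ∈ Subtype.val '' t
      · obtain ⟨x, hx, rfl⟩ := ha
        obtain ⟨i, hi⟩ := mem_iUnion.1 (ht hx)
        obtain ⟨s, h1, h2⟩ := hnhd (hU i) x hi
        exact ⟨s, fun _ => ⟨h1, i, h2⟩⟩
      · exact ⟨∅, fun h => (ha h).elim⟩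
    choose s hs using h4
    obtain ⟨Y0, hY1, hY2, hY3⟩ := cover2 (Subtype.val '' t) (by
      rintro _ ⟨x, -, rfl⟩
      exact x.2) s fun y hy => (hs y hy).1
    choose f hf using fun y : Y0 => (hs y (hY1 y.2)).2
    haveI := hY2.to_subtype
    refine ⟨range f, countable_range f, ?_⟩
    intro x hx
    obtain ⟨y, hy, hy'⟩ := hY3 x.1 ⟨x, hx, rfl⟩
    exact mem_biUnion (mem_range_self ⟨y, hy⟩) (hf ⟨y, hy⟩ x hy')
  refine ⟨X, inferInstance, inferInstance, hHL, fun g => {y | g.1 ∉ y.1.ch}, fun x => ⟨?_, ?_⟩, ?_⟩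
  · exact (top2_open T.CH (Sum.inl x.1)).preimage continuous_subtype_val
  · exact x.1.not_mem_ch
  · intro D hD hU
    have hDc : D.Countable := (HereditarilyLindelofSpace.isLindelof D).countable hD
    obtain ⟨x, hx⟩ := T.exists_ch (Subtype.val '' D) (hDc.image _)
    have hdisc : Disc T.CH x.ch := by
      rw [hx]
      rintro _ ⟨p, hp, rfl⟩
      have h5 : IsOpen ({⟨p, hp⟩} : Set D) := isOpen_discrete _
      obtain ⟨O, hO, hO'⟩ := isOpen_induced_iff.1 h5
      have hpO : p ∈ O := by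
        have : (⟨p, hp⟩ : D) ∈ Subtype.val ⁻¹' O := by rw [hO']; rfl
        exact this
      obtain ⟨s, h1, h2⟩ := hnhd hO p hpO
      refine ⟨s, h1, (finite_singleton p.1).subset ?_⟩
      rintro _ ⟨⟨q, hq, rfl⟩, hq'⟩
      have : (⟨q, hq⟩ : D) ∈ Subtype.val ⁻¹' O := h2 q hq'
      rw [hO'] at this
      have h9 : q = p := congrArg Subtype.val this
      rw [h9]
      rfl
    have h6 : (⟨x, hdisc⟩ : X) ∈ ⋃ g ∈ D, {y : X | g.1 ∉ y.1.ch} := by
      rw [hU]
      trivial
    simp only [mem_iUnion] at h6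
    obtain ⟨g, hg, hg'⟩ := h6
    exact hg' (by rw [hx]; exact ⟨g, hg, rfl⟩)

end H299Dual
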