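import Pool.Agent.H299Z.Dual.Gen

set_option autoImplicit false

namespace H299Dual

open Set Cardinal

theorem countable_finsets {Γ : Type} {B : Set Γ} (hB : B.Countable) :
    {r : Finset Γ | (r : Set Γ) ⊆ B}.Countable := by
  have := countable_ofPred_finite_subset hB
  refine (this.preimage_of_injOn (f := fun r : Finset Γ => (r : Set Γ))
    (fun a _ b _ h => Finset.coe_injective h)).mono ?_
  intro r hr
  exact ⟨r.finite_toSet, hr⟩

/-- the countable ordinals -/
abbrev Om : Type := (aleph 1 : Cardinal.{0}).ord.ToType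

theorem mk_Om : #Om = aleph 1 := by simp

theorem countable_Iio (a : Om) : (Iio a).Countable := by
  have := mk_Iio_toType_ord_lt a
  exact countable_iff_lt_aleph_one _ |>.2 this

theorem countable_Iic (a : Om) : (Iic a).Countable := by
  rw [← Iio_insert]
  exact (countable_Iio a).insert a

theorem not_countable_Om : ¬ (univ : Set Om).Countable := by
  rw [countable_iff_lt_aleph_one, mk_univ, mk_Om]
  exact lt_irrefl _

instance : Nonempty Om := by
  by_contra h
  rw [not_nonempty_iff] at h
  exact not_countable_Om (Set.toFinite _).countable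

instance : Infinite Om := by
  by_contra h
  rw [not_infinite_iff_finite] at h
  exact not_countable_Om (Set.toFinite _).countable

theorem exists_list (h : aleph 1 = continuum.{0}) (O : Type) [Nonempty O] (hO : #O ≤ continuum) :
    ∃ e : Om → O, ∀ o, ∀ C : Set Om, C.Countable → ∃ γ, e γ = o ∧ ∀ c ∈ C, c < γ := by
  have h1 : #(O × Om) ≤ #Om := by
    rw [mk_prod, lift_id, lift_id, mk_Om, h]
    calc #O * continuum ≤ continuum * continuum := by gcongr
      _ = continuum := continuum_mul_self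
  obtain ⟨j⟩ := (le_def _ _).1 h1
  let e0 : Om → O × Om := Function.invFun j
  have he : ∀ x, e0 (j x) = x := Function.leftInverse_invFun j.injective
  refine ⟨fun γ => (e0 γ).1, fun o C hC => ?_⟩
  by_contra hcon
  push Not at hcon
  apply not_countable_Om
  have h2 : (⋃ c ∈ C, Iic c).Countable := hC.biUnion fun c _ => countable_Iic c
  refine (h2.preimage_of_injOn (f := fun β => j (o, β)) ?_).mono ?_
  · intro a _ b _ hab
    exact (Prod.ext_iff.1 (j.injective hab)).2
  · intro β _
    obtain ⟨c, hc, hc'⟩ := hcon (j (o, β)) (by rw [he])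
    exact mem_biUnion hc hc'

theorem mk_seq_le {β : Type} (h : #β ≤ continuum) : #(ℕ → β) ≤ continuum := by
  rw [← power_def, mk_nat]
  calc #β ^ ℵ₀ ≤ continuum ^ ℵ₀ := power_le_power_right h
    _ = continuum := continuum_power_aleph0

theorem mk_prod_le {α β : Type} (h : #α ≤ continuum) (h' : #β ≤ continuum) :
    #(α × β) ≤ continuum := by
  rw [mk_prod, lift_id, lift_id]
  calc #α * #β ≤ continuum * continuum := by gcongr
    _ = continuum := continuum_mul_self

theorem mk_Om_le : #Om ≤ continuum := by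
  rw [mk_Om]
  exact aleph_one_le_continuum

theorem exists_col (h : aleph 1 = continuum.{0}) : ∃ col : Om → Om → Bool,
    ∀ (m : ℕ) (a : ℕ → ℕ → Om),
      (∀ n n' i i', i < m → i' < m → a n i = a n' i' → n = n' ∧ i = i') →
      ∃ δ, (∀ n i, a n i < δ) ∧ ∀ (R : Finset Om) (σ : ℕ → Om → Bool), (∀ γ ∈ R, δ < γ) →
        {n | ∀ i < m, ∀ γ ∈ R, col γ (a n i) = σ i γ}.Infinite := by
  classical
  obtain ⟨e, he⟩ := exists_list h (ℕ × (ℕ → ℕ → Om))
    (mk_prod_le (by rw [mk_nat]; exact aleph0_le_continuum) (mk_seq_le (mk_seq_le mk_Om_le)))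
  let τ := Om × Finset (ℕ × Om × Bool) × Finset ℕ
  let T : Om → Set τ := fun γ => {t | t.1 < γ ∧ ∀ x ∈ t.2.1, x.2.1 < γ}
  have hT : ∀ γ, (T γ).Countable := by
    intro γ
    have h1 : ((univ : Set ℕ) ×ˢ (Iio γ ×ˢ (univ : Set Bool))).Countable :=
      countable_univ.prod ((countable_Iio γ).prod countable_univ)
    refine ((countable_Iio γ).prod ((countable_finsets h1).prod
      (countable_univ (α := Finset ℕ)))).mono ?_
    intro t ht
    exact ⟨ht.1, fun x hx => ⟨trivial, ht.2 x hx, trivial⟩, trivial⟩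
  let S : (Om → Om → Bool) → τ → Set ℕ := fun D t =>
    {n | ∀ x ∈ t.2.1, D x.2.1 ((e t.1).2 n x.1) = x.2.2}
  let s : τ → ℕ → Finset Om := fun t n => (Finset.range (e t.1).1).image ((e t.1).2 n)
  let φ : τ → ℕ → Om → Bool := fun t n v => decide (∃ i ∈ t.2.2, (e t.1).2 n i = v)
  obtain ⟨col, hcol⟩ := exists_rec (I := Om) (X := Om → Bool)
    (fun γ D g => ∀ t ∈ T γ, (S D t).Infinite →
      ((S D t).Pairwise fun n n' => Disjoint (s t n) (s t n')) →
      {n | n ∈ S D t ∧ ∀ v ∈ s t n, g v = φ t n v}.Infinite)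
    (by
      intro γ D D' g hD hg t ht
      have : S D t = S D' t := by
        ext n
        simp only [S, mem_setOf_eq]
        refine forall₂_congr fun x hx => ?_
        rw [hD _ (ht.2 x hx)]
      rw [← this]
      exact hg t ht)
    (fun γ D => exists_generic (T γ) (hT γ) (S D) s φ)
  refine ⟨col, fun m a ha => ?_⟩
  obtain ⟨δ, hδ1, hδ2⟩ := he (m, a) (range fun x : ℕ × ℕ => a x.1 x.2) (countable_range _)
  refine ⟨δ, fun n i => hδ2 _ ⟨(n, i), rfl⟩, fun R σ => ?_⟩
  induction R using Finset.induction_on_max with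
  | empty =>
    intro _
    simpa using infinite_univ
  | insert γ R hR ih =>
    intro hγ
    have ih' := ih fun x hx => hγ x (Finset.mem_insert_of_mem hx)
    let t : τ := (δ, (Finset.range m ×ˢ R).image (fun x => (x.1, x.2, σ x.1 x.2)),
      (Finset.range m).filter fun i => σ i γ = true)
    have ht : t ∈ T γ := by
      refine ⟨hγ γ (Finset.mem_insert_self _ _), ?_⟩
      intro x hx
      obtain ⟨y, hy, rfl⟩ := Finset.mem_image.1 hx
      exact hR _ (Finset.mem_product.1 hy).2
    have hS : S col t = {n | ∀ i < m, ∀ γ ∈ R, col γ (a n i) = σ i γ} := by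
      ext n
      simp only [S, t, mem_setOf_eq, hδ1, Finset.forall_mem_image, Finset.mem_product,
        Finset.mem_range]
      constructor
      · intro hh i hi γ' hγ'
        exact hh (x := (i, γ')) ⟨hi, hγ'⟩
      · intro hh x hx
        exact hh _ hx.1 _ hx.2
    have hs : ∀ n, s t n = (Finset.range m).image (a n) := by
      intro n
      simp only [s, t, hδ1]
    have h3 := hcol γ t ht (hS ▸ ih') (by
      intro n _ n' _ hne
      rw [hs, hs, Finset.disjoint_left]
      intro v hv hv'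
      obtain ⟨i, hi, rfl⟩ := Finset.mem_image.1 hv
      obtain ⟨i', hi', hh⟩ := Finset.mem_image.1 hv'
      exact hne (ha _ _ _ _ (Finset.mem_range.1 hi) (Finset.mem_range.1 hi') hh.symm).1)
    refine h3.mono ?_
    rintro n ⟨hn1, hn2⟩ i hi γ' hγ'
    rcases Finset.mem_insert.1 hγ' with rfl | hγ'
    · rw [hn2 (a n i) (by rw [hs]; exact Finset.mem_image_of_mem _ (Finset.mem_range.2 hi))]
      simp only [φ, t, hδ1, Finset.mem_filter, Finset.mem_range]
      by_cases hσ : σ i γ' = true
      · rw [hσ, decide_eq_true_iff]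
        exact ⟨i, ⟨hi, hσ⟩, rfl⟩
      · rw [Bool.not_eq_true] at hσ
        rw [hσ, decide_eq_false_iff_not]
        rintro ⟨j, ⟨hj, hj'⟩, hh⟩
        obtain ⟨-, rfl⟩ := ha _ _ _ _ hj hi hh
        rw [hσ] at hj'
        exact Bool.false_ne_true hj'
    · rw [hS] at hn1
      exact hn1 i hi γ' hγ'

open Classical in
theorem exists_matrix (h : aleph 1 = continuum.{0}) : ∃ (F : Om → Om → Bool) (E : Om → Set Om),
    (∀ α, F α α = false) ∧ (∀ α, ∀ v ∈ E α, v < α → F α v = true) ∧
    (∀ D : Set Om, D.Countable → ∃ α, E α = D ∧ ∀ c ∈ D, c < α) ∧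
    (∀ (m : ℕ) (a : ℕ → ℕ → Om),
      (∀ n n' i i', i < m → i' < m → a n i = a n' i' → n = n' ∧ i = i') →
      ∃ δ, ∀ (R : Finset Om) (σ : ℕ → Om → Bool), (∀ γ ∈ R, δ < γ) →
        {n | ∀ i < m, ∀ γ ∈ R, F (a n i) γ = σ i γ}.Infinite) ∧
    (∀ (s : ℕ → Finset Om) (φ : ℕ → Om → Bool), (Pairwise fun n n' => Disjoint (s n) (s n')) →
      ∃ δ, ∀ α, δ < α → {n | Disjoint (E α) (s n : Set Om)}.Infinite →
        ∃ n, ∀ v ∈ s n, F α v = φ n v) := by
  obtain ⟨col, hcol⟩ := exists_col h
  have hF : #(Finset Om) ≤ continuum := by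
    rw [mk_finset_of_infinite]
    exact mk_Om_le
  obtain ⟨e2, he2⟩ := exists_list h (ℕ → Finset Om × Finset Om) (mk_seq_le (mk_prod_le hF hF))
  obtain ⟨e3, he3⟩ := exists_list h (ℕ → Option Om) (mk_seq_le (by
    rw [mk_option, mk_Om, h]
    exact (add_one_eq aleph0_le_continuum).le))
  let E : Om → Set Om := fun α => {v | ∃ n, e3 α n = some v}
  choose g hg using fun α : Om => exists_generic (Iio α) (countable_Iio α)
    (fun δ => {n | Disjoint (E α) ((e2 δ n).1 : Set Om)}) (fun δ n => (e2 δ n).1)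
    (fun δ n v => decide (v ∈ (e2 δ n).2))
  let F : Om → Om → Bool := fun α γ =>
    if γ < α then (if γ ∈ E α then true else g α γ) else if γ = α then false else col γ α
  refine ⟨F, E, ?_, ?_, ?_, ?_, ?_⟩
  · intro α
    simp [F]
  · intro α v hv hvα
    simp [F, hv, hvα]
  · intro D hD
    obtain ⟨u, hu⟩ := ((hD.image some).insert none).exists_eq_range (insert_nonempty _ _)
    obtain ⟨α, h1, h2⟩ := he3 u D hD
    refine ⟨α, ?_, h2⟩
    ext v
    have : (∃ n, u n = some v) ↔ some v ∈ range u := Iff.rfl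
    simp only [E, mem_setOf_eq, h1, this, ← hu]
    simp
  · intro m a ha
    obtain ⟨δ, h1, h2⟩ := hcol m a ha
    refine ⟨δ, fun R σ hR => (h2 R σ hR).mono ?_⟩
    intro n hn i hi γ hγ
    have h3 : a n i < γ := (h1 n i).trans (hR γ hγ)
    simp only [F, h3.not_gt, h3.ne', if_false]
    exact hn i hi γ hγ
  · intro s φ hs
    obtain ⟨δ, h1, h2⟩ := he2 (fun n => (s n, (s n).filter fun v => φ n v = true))
      (⋃ n, (s n : Set Om)) (countable_iUnion fun n => (s n).finite_toSet.countable)
    refine ⟨δ, fun α hα hinf => ?_⟩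
    have h3 := hg α δ hα (by simpa only [h1] using hinf) (by
      intro n _ n' _ hne
      simpa only [h1] using hs hne)
    obtain ⟨n, hn1, hn2⟩ := h3.nonempty
    simp only [h1, mem_setOf_eq] at hn1 hn2
    refine ⟨n, fun v hv => ?_⟩
    have h4 : v < α := (h2 v (mem_iUnion.2 ⟨n, hv⟩)).trans hα
    have h5 : v ∉ E α := Set.disjoint_right.1 hn1 hv
    simp only [F, h4, h5, if_true, if_false]
    rw [hn2 v hv]
    simp [hv]

end H299Dual
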