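import Pool.Agent.H299Z.Dual.Matrix

set_option autoImplicit false

namespace H299Dual

open Set Cardinal

section

variable (F : Om → Om → Bool)

/-- the conditions violated by `x` -/
def viol (x : Om) : Set (Om × Bool) := {g | F x g.1 ≠ g.2}

/-- the column property -/
def ColP : Prop :=
  ∀ (m : ℕ) (a : ℕ → ℕ → Om),
    (∀ n n' i i', i < m → i' < m → a n i = a n' i' → n = n' ∧ i = i') →
    ∃ δ, ∀ (R : Finset Om) (σ : ℕ → Om → Bool), (∀ γ ∈ R, δ < γ) →
      {n | ∀ i < m, ∀ γ ∈ R, F (a n i) γ = σ i γ}.Infinite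

theorem not_pierced' (hcol : ColP F) (Z : Set Om) (hZ : ¬ Z.Countable)
    (s : Om → Finset Om) (m : ℕ) (hs : ∀ y ∈ Z, (s y).card = m)
    (hd : Z.Pairwise fun y y' => Disjoint (s y) (s y')) :
    ∃ A : Set Om, A ⊆ Z ∧ A.Countable ∧ ∀ D : Set Om, Disc (viol F) D →
      {y | y ∈ A ∧ Disjoint D (s y : Set Om)}.Infinite := by
  classical
  have h1 : ∀ y : Z, ∃ a : Fin m → Om, Function.Injective a ∧ (∀ i, a i ∈ s y) ∧
      ∀ c ∈ s y, ∃ i, a i = c := by
    intro y
    let e := (s y).equivFinOfCardEq (hs y y.2)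
    refine ⟨fun i => (e.symm i : Om), fun i j hij => e.symm.injective (Subtype.ext hij),
      fun i => (e.symm i).2, fun c hc => ⟨e ⟨c, hc⟩, by simp⟩⟩
  choose a ha0 ha1 ha2 using h1
  have hinj : ∀ (y y' : Z) i i', a y i = a y' i' → y = y' := by
    intro y y' i i' h
    by_contra hne
    have hne' : (y : Om) ≠ y' := fun h => hne (Subtype.ext h)
    have := hd y.2 y'.2 hne'
    exact Finset.disjoint_left.1 this (ha1 y i) (h ▸ ha1 y' i')
  let CH : Z → Set (Fin m × Om × Bool) := fun y => {g | g.2 ∈ viol F (a y g.1)}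
  have hCH : Fin' CH := by
    intro N _ hN
    let u := hN.natEmbedding N
    obtain ⟨δ, hδ⟩ := hcol m (fun n i => if h : i < m then a (u n) ⟨i, h⟩ else Classical.arbitrary _)
      (by
        intro n n' i i' hi hi' h
        simp only [hi, hi', dif_pos] at h
        have h2 := hinj _ _ _ _ h
        have h3 : n = n' := u.injective (Subtype.ext h2)
        subst h3
        exact ⟨rfl, by simpa using ha0 _ h⟩)
    refine ⟨(univ : Set (Fin m)) ×ˢ (Iic δ ×ˢ (univ : Set Bool)),
      countable_univ.prod ((countable_Iic δ).prod countable_univ), ?_⟩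
    intro p r hr hp
    have h2 := hδ (r.image fun g => g.2.1)
      (fun i γ => if h : i < m then F (a p ⟨i, h⟩) γ else false) (by
        intro γ hγ
        obtain ⟨g, hg, rfl⟩ := Finset.mem_image.1 hγ
        by_contra hle
        exact Set.disjoint_right.1 hr hg ⟨trivial, not_lt.1 hle, trivial⟩)
    have h3 : Function.Injective fun n => (u n : Z) := fun n n' h => u.injective (Subtype.ext h)
    refine (h2.image h3.injOn).mono ?_
    rintro _ ⟨n, hn, rfl⟩
    refine ⟨(u n).2, ?_⟩
    rw [Set.disjoint_right]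
    intro g hg hg'
    have h4 := hn g.1 g.1.2 g.2.1 (Finset.mem_image_of_mem _ hg)
    simp only [Fin.is_lt, dif_pos, Fin.eta] at h4
    apply Set.disjoint_right.1 hp hg
    change F (a p g.1) g.2.1 ≠ g.2.2
    rw [← h4]
    exact hg'
  have hu : ¬ (univ : Set Z).Countable := by
    intro h
    exact hZ (countable_coe_iff.1 (countable_univ_iff.1 h))
  obtain ⟨A, -, hA2, hA3⟩ := exists_not_covered' CH hCH univ hu
  refine ⟨Subtype.val '' A, by rintro _ ⟨y, -, rfl⟩; exact y.2, hA2.image _, ?_⟩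
  intro D hD
  have h5 := hA3 m (fun i => {y | a y i ∈ D}) (by
    intro i p hp
    obtain ⟨r, hr1, hr2⟩ := hD _ hp
    refine ⟨r.image fun c => (i, c), ?_, ?_⟩
    · rw [Set.disjoint_right]
      intro g hg
      simp only [Finset.coe_image, mem_image] at hg
      obtain ⟨c, hc, rfl⟩ := hg
      exact Set.disjoint_right.1 hr1 hc
    · refine (hr2.preimage (f := fun y : Z => a y i)
        (fun y _ y' _ h => hinj y y' i i h)).subset ?_
      intro y hy
      refine ⟨hy.1, ?_⟩
      rw [Set.disjoint_right]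
      intro c hc hc'
      have hmem : (i, c) ∈ ((r.image fun c => (i, c) : Finset (Fin m × Om × Bool)) :
          Set (Fin m × Om × Bool)) := by
        simp only [Finset.coe_image, mem_image]
        exact ⟨c, hc, rfl⟩
      exact Set.disjoint_right.1 hy.2 hmem hc')
  refine (h5.image Subtype.val_injective.injOn).mono ?_
  rintro _ ⟨q, ⟨hq, hq'⟩, rfl⟩
  refine ⟨⟨q, hq, rfl⟩, ?_⟩
  rw [Set.disjoint_right]
  intro c hc hcD
  obtain ⟨i, rfl⟩ := ha2 q c hc
  exact hq' i hcD

variable (E : Om → Set Om)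

/-- the row property -/
def RowP : Prop :=
  ∀ (s : ℕ → Finset Om) (φ : ℕ → Om → Bool), (Pairwise fun n n' => Disjoint (s n) (s n')) →
    ∃ δ, ∀ α, δ < α → {n | Disjoint (E α) (s n : Set Om)}.Infinite →
      ∃ n, ∀ v ∈ s n, F α v = φ n v

theorem cover_card' (hcol : ColP F) (hrow : RowP F E) (n : ℕ) :
    ∀ (Y : Set Om) (s : Om → Finset Om), (∀ y ∈ Y, Disc (viol F) (E y)) →
      (∀ y ∈ Y, (s y).card = n) →
      ∃ Y0 : Set Om, Y0 ⊆ Y ∧ Y0.Countable ∧ ∀ x ∈ Y, ∃ y ∈ Y0, ∀ v ∈ s y, F x v = F y v := by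
  classical
  induction n with
  | zero =>
    intro Y s _ hs
    rcases Y.eq_empty_or_nonempty with rfl | ⟨y, hy⟩
    · exact ⟨∅, subset_rfl, countable_empty, by simp⟩
    · refine ⟨{y}, singleton_subset_iff.2 hy, countable_singleton y, fun x _ => ⟨y, rfl, ?_⟩⟩
      rw [Finset.card_eq_zero.1 (hs y hy)]
      simp
  | succ n ih =>
    intro Y s hY hs
    obtain ⟨Z, hZ⟩ := zorn_subset
      {Z : Set Om | Z ⊆ Y ∧ Z.Pairwise fun y y' => Disjoint (s y) (s y')} (by
        intro c hc1 hc2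
        refine ⟨⋃₀ c, ⟨sUnion_subset fun t ht => (hc1 ht).1, ?_⟩, fun t ht => subset_sUnion_of_mem ht⟩
        rintro y ⟨t, ht, hy⟩ y' ⟨t', ht', hy'⟩ hne
        rcases hc2.total ht ht' with h | h
        · exact (hc1 ht').2 (h hy) hy' hne
        · exact (hc1 ht).2 hy (h hy') hne)
    by_cases hZc : Z.Countable
    · let C : Set Om := ⋃ z ∈ Z, (s z : Set Om)
      have hC : C.Countable := hZc.biUnion fun z _ => (s z).finite_toSet.countable
      have hpierce : ∀ y ∈ Y, ∃ c ∈ C, c ∈ s y := by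
        intro y hy
        by_contra hcon
        push Not at hcon
        have hdz : ∀ z ∈ Z, Disjoint (s y) (s z) := by
          intro z hz
          rw [Finset.disjoint_right]
          intro c hc
          exact hcon c (mem_biUnion hz hc)
        have hmem : insert y Z ∈
            {Z : Set Om | Z ⊆ Y ∧ Z.Pairwise fun y y' => Disjoint (s y) (s y')} := by
          refine ⟨insert_subset hy hZ.prop.1, ?_⟩
          refine hZ.prop.2.insert ?_
          intro z hz _
          exact ⟨hdz z hz, (hdz z hz).symm⟩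
        have hyZ : y ∈ Z := hZ.le_of_ge hmem (subset_insert _ _) (mem_insert _ _)
        have h0 := hdz y hyZ
        rw [disjoint_self] at h0
        have := hs y hy
        rw [h0] at this
        simp at this
      have h2 : ∀ c : Om × Bool, ∃ Y0 : Set Om, Y0 ⊆ {y | y ∈ Y ∧ c.1 ∈ s y ∧ F y c.1 = c.2} ∧
          Y0.Countable ∧ ∀ x ∈ {y | y ∈ Y ∧ c.1 ∈ s y ∧ F y c.1 = c.2},
            ∃ y ∈ Y0, ∀ v ∈ (s y).erase c.1, F x v = F y v := by
        intro c
        refine ih _ (fun y => (s y).erase c.1) (fun y hy => hY y hy.1) ?_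
        intro y hy
        rw [Finset.card_erase_of_mem hy.2.1, hs y hy.1]
        rfl
      choose W hW1 hW2 hW3 using h2
      refine ⟨⋃ c ∈ C ×ˢ (univ : Set Bool), W c, ?_,
        (hC.prod countable_univ).biUnion fun c _ => hW2 c, ?_⟩
      · intro x hx
        simp only [mem_iUnion] at hx
        obtain ⟨c, -, hx⟩ := hx
        exact (hW1 c hx).1
      · intro x hx
        obtain ⟨c, hcC, hcx⟩ := hpierce x hx
        obtain ⟨y, hy, h1⟩ := hW3 (c, F x c) x ⟨hx, hcx, rfl⟩
        refine ⟨y, mem_biUnion (s := C ×ˢ (univ : Set Bool)) (x := (c, F x c)) ⟨hcC, trivial⟩ hy, ?_⟩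
        intro v hv
        by_cases hvc : v = c
        · subst hvc
          exact (hW1 _ hy).2.2.symm
        · exact h1 v (Finset.mem_erase.2 ⟨hvc, hv⟩)
    · obtain ⟨A, hA1, hA2, hA3⟩ := not_pierced' F hcol Z hZc s (n + 1)
        (fun y hy => hs y (hZ.prop.1 hy)) hZ.prop.2
      have hAinf : A.Infinite :=
        (hA3 ∅ (disc_of_finite _ finite_empty)).mono fun _ h => h.1
      haveI := hA2.to_subtype
      haveI := hAinf.to_subtype
      obtain ⟨u⟩ : Nonempty (ℕ ≃ A) := nonempty_equiv_of_countable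
      obtain ⟨δ, hδ⟩ := hrow (fun k => s (u k)) (fun k => F (u k)) (by
        intro k k' hne
        refine hZ.prop.2 (hA1 (u k).2) (hA1 (u k').2) ?_
        intro h
        exact hne (u.injective (Subtype.ext h)))
      refine ⟨A ∪ (Iic δ ∩ Y), union_subset (hA1.trans hZ.prop.1) inter_subset_right,
        hA2.union ((countable_Iic δ).mono inter_subset_left), ?_⟩
      intro x hx
      by_cases h : x ≤ δ
      · exact ⟨x, Or.inr ⟨h, hx⟩, fun _ _ => rfl⟩
      · obtain ⟨k, hk⟩ := hδ x (not_le.1 h) (by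
          refine Set.Infinite.of_image (fun k => (u k : Om)) ((hA3 _ (hY x hx)).mono ?_)
          intro y hy
          refine ⟨u.symm ⟨y, hy.1⟩, ?_, by simp⟩
          simpa using hy.2)
        exact ⟨u k, Or.inl (u k).2, hk⟩

theorem cover' (hcol : ColP F) (hrow : RowP F E) (Y : Set Om) (s : Om → Finset Om)
    (hY : ∀ y ∈ Y, Disc (viol F) (E y)) :
    ∃ Y0 : Set Om, Y0 ⊆ Y ∧ Y0.Countable ∧ ∀ x ∈ Y, ∃ y ∈ Y0, ∀ v ∈ s y, F x v = F y v := by
  choose W hW1 hW2 hW3 using fun n => cover_card' F E hcol hrow n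
    {y | y ∈ Y ∧ (s y).card = n} s (fun y hy => hY y hy.1) (fun y hy => hy.2)
  refine ⟨⋃ n, W n, iUnion_subset fun n x hx => (hW1 n hx).1, countable_iUnion hW2, ?_⟩
  intro x hx
  obtain ⟨y, hy, h⟩ := hW3 _ x ⟨hx, rfl⟩
  exact ⟨y, mem_iUnion.2 ⟨_, hy⟩, h⟩

end

theorem exists_finset_nhd {X : Set (Om → Bool)} {U : Set X} (hU : IsOpen U) {x : X} (hx : x ∈ U) :
    ∃ s : Finset Om, ∀ y : X, (∀ v ∈ s, y.1 v = x.1 v) → y ∈ U := by
  obtain ⟨O, hO, rfl⟩ := isOpen_induced_iff.1 hU
  obtain ⟨I, u, h1, h2⟩ := isOpen_pi_iff.1 hO x.1 hx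
  refine ⟨I, fun y hy => h2 fun v hv => ?_⟩
  rw [hy v hv]
  exact (h1 v hv).2

theorem main_ch (h : aleph 1 = continuum.{0}) : ∃ X : Set (Om → Bool),
    HereditarilyLindelofSpace X ∧ ∃ U : X → Set X, (∀ x, IsClopen (U x) ∧ x ∈ U x) ∧
      ∀ D : Set X, DiscreteTopology D → (⋃ x ∈ D, U x) ≠ Set.univ := by
  classical
  obtain ⟨F, E, h1, h2, h3, hcol, hrow⟩ := exists_matrix h
  let X : Set (Om → Bool) := {x | ∃ α, Disc (viol F) (E α) ∧ F α = x}
  choose ind hind1 hind2 using fun x : X => x.2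
  have hinj : Function.Injective ind := by
    intro x y hxy
    apply Subtype.ext
    rw [← hind2 x, ← hind2 y, hxy]
  have hHL : HereditarilyLindelofSpace X := by
    refine ⟨fun t _ => isLindelof_of_countable_subcover ?_⟩
    intro ι U hU ht
    have h4 : ∀ α : Om, ∃ s : Finset Om, α ∈ ind '' t →
        ∃ i, ∀ y : X, (∀ v ∈ s, y.1 v = F α v) → y ∈ U i := by
      intro α
      by_cases hα : α ∈ ind '' t
      · obtain ⟨x, hx, rfl⟩ := hα
        obtain ⟨i, hi⟩ := mem_iUnion.1 (ht hx)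
        obtain ⟨s, hs⟩ := exists_finset_nhd (hU i) hi
        exact ⟨s, fun _ => ⟨i, by rw [hind2]; exact hs⟩⟩
      · exact ⟨∅, fun h => (hα h).elim⟩
    choose s hs using h4
    obtain ⟨Y0, hY1, hY2, hY3⟩ := cover' F E hcol hrow (ind '' t) s (by
      rintro _ ⟨x, -, rfl⟩
      exact hind1 x)
    choose f hf using fun y : Y0 => hs y (hY1 y.2)
    haveI := hY2.to_subtype
    refine ⟨range f, countable_range f, ?_⟩
    intro x hx
    obtain ⟨y, hy, hy'⟩ := hY3 (ind x) ⟨x, hx, rfl⟩
    refine mem_biUnion (mem_range_self ⟨y, hy⟩) (hf ⟨y, hy⟩ x ?_)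
    rw [← hind2 x]
    exact hy'
  refine ⟨X, hHL, fun x => {y | y.1 (ind x) = false}, fun x => ⟨?_, ?_⟩, ?_⟩
  · change IsClopen ((fun y : X => y.1 (ind x)) ⁻¹' {false})
    exact (isClopen_discrete _).preimage ((continuous_apply _).comp continuous_subtype_val)
  · change x.1 (ind x) = false
    rw [← hind2 x]
    exact h1 _
  · intro D hD hU
    have hDc : D.Countable := (HereditarilyLindelofSpace.isLindelof D).countable hD
    obtain ⟨α, hα1, hα2⟩ := h3 (ind '' D) (hDc.image _)
    have hdisc : Disc (viol F) (E α) := by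
      rw [hα1]
      rintro _ ⟨p, hp, rfl⟩
      have h5 : IsOpen ({⟨p, hp⟩} : Set D) := isOpen_discrete _
      obtain ⟨O, hO, hO'⟩ := isOpen_induced_iff.1 h5
      have hpO : p ∈ O := by
        have : (⟨p, hp⟩ : D) ∈ Subtype.val ⁻¹' O := by rw [hO']; rfl
        exact this
      obtain ⟨s, hs⟩ := exists_finset_nhd hO hpO
      refine ⟨s.image fun v => (v, p.1 v), ?_, (finite_singleton (ind p)).subset ?_⟩
      · rw [Set.disjoint_right]
        intro g hg
        simp only [Finset.coe_image, mem_image] at hg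
        obtain ⟨v, -, rfl⟩ := hg
        simp [viol, hind2]
      · rintro _ ⟨⟨q, hq, rfl⟩, hq'⟩
        have h6 : q ∈ O := by
          refine hs q fun v hv => ?_
          have h7 : (v, p.1 v) ∈ ((s.image fun v => (v, p.1 v) : Finset (Om × Bool)) :
              Set (Om × Bool)) := by
            simp only [Finset.coe_image, mem_image]
            exact ⟨v, hv, rfl⟩
          have h8 := Set.disjoint_right.1 hq' h7
          simpa [viol, hind2] using h8
        have : (⟨q, hq⟩ : D) ∈ Subtype.val ⁻¹' O := h6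
        rw [hO'] at this
        have h9 : q = p := congrArg Subtype.val this
        rw [h9]
        rfl
    have hx : (⟨F α, α, hdisc, rfl⟩ : X) ∈ ⋃ x ∈ D, {y : X | y.1 (ind x) = false} := by
      rw [hU]
      trivial
    simp only [mem_iUnion] at hx
    obtain ⟨d, hd, hd'⟩ := hx
    have h10 := h2 α (ind d) (by rw [hα1]; exact ⟨d, hd, rfl⟩) (hα2 _ ⟨d, hd, rfl⟩)
    have h11 : F α (ind d) = false := hd'
    rw [h10] at h11
    exact Bool.noConfusion h11

end H299Dual
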