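import Pool.Agent.H299Z.Dual.Comb

set_option autoImplicit false

namespace H299Dual

open Set

/-- Well-founded countably branching trees. -/
inductive T : Type
  | leaf : T
  | node : (ℕ → T) → T

/-- The set of children. -/
def T.ch : T → Set T
  | .leaf => ∅
  | .node f => range f

theorem T.not_mem_ch (x : T) : x ∉ x.ch := by
  induction x with
  | leaf => simp [T.ch]
  | node f ih =>
    rintro ⟨n, hn⟩
    apply ih n
    have : (f n).ch = range f := by rw [hn]; rfl
    rw [this]
    exact ⟨n, rfl⟩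

theorem T.countable_ch (x : T) : x.ch.Countable := by
  cases x with
  | leaf => exact countable_empty
  | node f => exact countable_range f

theorem T.exists_ch (D : Set T) (hD : D.Countable) : ∃ x : T, x.ch = D := by
  rcases D.eq_empty_or_nonempty with rfl | h
  · exact ⟨.leaf, rfl⟩
  · obtain ⟨f, hf⟩ := hD.exists_eq_range h
    exact ⟨.node f, hf.symm⟩

/-- Trees all of whose nodes have a discrete set of children. -/
inductive Good : T → Prop
  | mk (x : T) : (∀ c ∈ x.ch, Good c) → Disc T.ch x.ch → Good x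

theorem Good.child {x c : T} (h : Good x) (hc : c ∈ x.ch) : Good c := by
  cases h with
  | mk _ h1 _ => exact h1 c hc

theorem Good.disc {x : T} (h : Good x) : Disc T.ch x.ch := by
  cases h with
  | mk _ _ h2 => exact h2

theorem exists_system : ∃ (X : Type) (ch : X → Set X), (∀ x, (ch x).Countable) ∧
    (∀ x, x ∉ ch x) ∧ (∀ x, Disc ch (ch x)) ∧
    ∀ D : Set X, D.Countable → Disc ch D → ∃ x, ch x = D := by
  classical
  refine ⟨{x : T // Good x}, fun x => {c | c.1 ∈ x.1.ch}, ?_, ?_, ?_, ?_⟩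
  · intro x
    exact x.1.countable_ch.preimage_of_injOn Subtype.val_injective.injOn
  · intro x
    exact x.1.not_mem_ch
  · intro x p hp
    obtain ⟨r, hr1, hr2⟩ := x.2.disc p.1 hp
    refine ⟨r.subtype Good, ?_, ?_⟩
    · rw [Set.disjoint_left]
      intro c hc hcr
      exact Set.disjoint_left.1 hr1 hc (by simpa using hcr)
    · refine (hr2.preimage (f := Subtype.val) Subtype.val_injective.injOn).subset ?_
      intro q hq
      refine ⟨hq.1, ?_⟩
      rw [Set.disjoint_left]
      intro c hc hcr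
      have h1 : (⟨c, q.2.child hc⟩ : {x : T // Good x}) ∈ {c : {x : T // Good x} | c.1 ∈ q.1.ch} := hc
      exact Set.disjoint_left.1 hq.2 h1 (by simpa using hcr)
  · intro D hD hdisc
    obtain ⟨x, hx⟩ := T.exists_ch (Subtype.val '' D) (hD.image _)
    have hg : Good x := by
      refine Good.mk x ?_ ?_
      · rw [hx]
        rintro _ ⟨c, -, rfl⟩
        exact c.2
      · rw [hx]
        rintro _ ⟨p, hp, rfl⟩
        obtain ⟨r, hr1, hr2⟩ := hdisc p hp
        refine ⟨r.image Subtype.val, ?_, ?_⟩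
        · rw [Set.disjoint_right]
          intro c hc hcp
          simp only [Finset.coe_image, mem_image] at hc
          obtain ⟨c', hc', rfl⟩ := hc
          exact Set.disjoint_right.1 hr1 hc' hcp
        · refine (hr2.image Subtype.val).subset ?_
          rintro _ ⟨⟨q, hq, rfl⟩, hq'⟩
          refine ⟨q, ⟨hq, ?_⟩, rfl⟩
          rw [Set.disjoint_right]
          intro c hc hcq
          refine Set.disjoint_right.1 hq' ?_ hcq
          simp only [Finset.coe_image, mem_image]
          exact ⟨c, hc, rfl⟩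
    refine ⟨⟨x, hg⟩, ?_⟩
    ext c
    simp only [mem_setOf_eq, hx]
    exact Subtype.val_injective.mem_set_image

/-- The topology generated by the sets `{y | g ∉ ch y}` and the cofinite sets. -/
def top {X : Type} (ch : X → Set X) : TopologicalSpace X where
  IsOpen U := ∀ x ∈ U, ∃ (s : Finset X) (F : Set X), F.Finite ∧ Disjoint (ch x) (s : Set X) ∧
    x ∉ F ∧ ∀ y, Disjoint (ch y) (s : Set X) → y ∉ F → y ∈ U
  isOpen_univ := fun _ _ => ⟨∅, ∅, finite_empty, by simp, by simp, fun _ _ _ => trivial⟩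
  isOpen_inter := by
    classical
    intro U V hU hV x hx
    obtain ⟨s, F, h1, h2, h3, h4⟩ := hU x hx.1
    obtain ⟨s', F', h1', h2', h3', h4'⟩ := hV x hx.2
    refine ⟨s ∪ s', F ∪ F', h1.union h1', ?_, ?_, ?_⟩
    · rw [Finset.coe_union]
      exact disjoint_union_right.2 ⟨h2, h2'⟩
    · rintro (h | h)
      exacts [h3 h, h3' h]
    · intro y hy hyF
      rw [Finset.coe_union, disjoint_union_right] at hy
      exact ⟨h4 y hy.1 fun h => hyF (Or.inl h), h4' y hy.2 fun h => hyF (Or.inr h)⟩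
  isOpen_sUnion := by
    rintro S hS x ⟨U, hU, hx⟩
    obtain ⟨s, F, h1, h2, h3, h4⟩ := hS U hU x hx
    exact ⟨s, F, h1, h2, h3, fun y hy hy' => ⟨U, hU, h4 y hy hy'⟩⟩

theorem top_t1 {X : Type} (ch : X → Set X) : @T1Space X (top ch) := by
  letI := top ch
  refine ⟨fun y => ⟨?_⟩⟩
  intro x hx
  exact ⟨∅, {y}, finite_singleton y, by simp, hx, fun z _ hz => hz⟩

theorem top_hl {X : Type} (ch : X → Set X) (hc : ∀ x, (ch x).Countable)
    (hdisc : ∀ x, Disc ch (ch x)) : @HereditarilyLindelofSpace X (top ch) := by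
  letI := top ch
  refine ⟨fun t _ => isLindelof_of_countable_subcover ?_⟩
  intro ι U hU ht
  have h1 : ∀ y : X, ∃ (s : Finset X) (F : Set X), F.Finite ∧ (y ∈ t → Disjoint (ch y) (s : Set X) ∧
      ∃ i, y ∈ U i ∧ ∀ z, Disjoint (ch z) (s : Set X) → z ∉ F → z ∈ U i) := by
    intro y
    by_cases hy : y ∈ t
    · obtain ⟨i, hi⟩ := mem_iUnion.1 (ht hy)
      obtain ⟨s, F, h1, h2, -, h4⟩ := hU i y hi
      exact ⟨s, F, h1, fun _ => ⟨h2, i, hi, h4⟩⟩
    · exact ⟨∅, ∅, finite_empty, fun h => (hy h).elim⟩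
  choose s F hF hs using h1
  obtain ⟨Y0, hY1, hY2, hY3⟩ := cover ch hc hdisc t s F hF fun y hy => (hs y hy).1
  choose f hf1 hf2 using fun y : Y0 => (hs y (hY1 y.2)).2
  haveI := hY2.to_subtype
  refine ⟨range f, countable_range f, ?_⟩
  intro x hx
  rcases hY3 x hx with h | ⟨y, hy, h1, h2⟩
  · exact mem_biUnion (mem_range_self ⟨x, h⟩) (hf1 ⟨x, h⟩)
  · exact mem_biUnion (mem_range_self ⟨y, hy⟩) (hf2 ⟨y, hy⟩ x h1 h2)

theorem top_open {X : Type} (ch : X → Set X) (g : X) : @IsOpen X (top ch) {y | g ∉ ch y} := by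
  intro x hx
  refine ⟨{g}, ∅, finite_empty, by simpa using hx, by simp, fun y hy _ => by simpa using hy⟩

theorem top_disc {X : Type} (ch : X → Set X) (D : Set X)
    (hD : @DiscreteTopology D (@instTopologicalSpaceSubtype X _ (top ch))) : Disc ch D := by
  letI := top ch
  intro p hp
  have h1 : IsOpen ({⟨p, hp⟩} : Set D) := isOpen_discrete _
  obtain ⟨O, hO, hO'⟩ := isOpen_induced_iff.1 h1
  have hpO : p ∈ O := by
    have : (⟨p, hp⟩ : D) ∈ Subtype.val ⁻¹' O := by rw [hO']; rfl
    exact this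
  obtain ⟨s, F, h1, h2, -, h4⟩ := hO p hpO
  refine ⟨s, h2, (h1.insert p).subset ?_⟩
  intro q hq
  by_cases h : q ∈ F
  · exact Or.inr h
  · left
    have : (⟨q, hq.1⟩ : D) ∈ Subtype.val ⁻¹' O := h4 q hq.2 h
    rw [hO'] at this
    exact congrArg Subtype.val this

theorem main : ∃ (X : Type) (_ : TopologicalSpace X), T1Space X ∧ HereditarilyLindelofSpace X ∧
    ∃ U : X → Set X, (∀ x, IsOpen (U x) ∧ x ∈ U x) ∧
      ∀ D : Set X, DiscreteTopology D → (⋃ x ∈ D, U x) ≠ univ := by
  obtain ⟨X, ch, h1, h2, h3, h4⟩ := exists_system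
  letI := top ch
  haveI := top_hl ch h1 h3
  refine ⟨X, top ch, top_t1 ch, this, fun g => {y | g ∉ ch y},
    fun x => ⟨top_open ch x, h2 x⟩, ?_⟩
  intro D hD hU
  obtain ⟨x, hx⟩ := h4 D ((HereditarilyLindelofSpace.isLindelof D).countable hD)
    (top_disc ch D hD)
  have : x ∈ ⋃ g ∈ D, {y | g ∉ ch y} := by rw [hU]; trivial
  simp only [mem_iUnion] at this
  obtain ⟨g, hg, hg'⟩ := this
  exact hg' (hx ▸ hg)

end H299Dual
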